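import Pool.Agent.H97.SHL.Targets

/-!
# Short lines at the scale of SETH (MP_c62aed_lc): all phases
-/

set_option autoImplicit false

namespace Pool.Agent.H72.SHL

open Finset Pool.Agent.H97.SHL

theorem pf_ITR (hPHA : T_PHA) (hLNG : T_LNG) : T_ITR := by
  intro X K _ _ D U Y N T₀ 𝓛 Lf dc nar gd Fam hE hY S A h hD L hL R
  have hU := hE.U1
  have hN := hE.N1
  have hU0 : 0 < U := by linarith
  have hN0 : 0 < N := by linarith
  have hU2 : U ≤ U ^ 2 := by nlinarith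
  have hU21 : 1 ≤ U ^ 2 := by nlinarith
  have hN3 : N ≤ N ^ 3 := by
    calc N = N * 1 := (mul_one N).symm
      _ ≤ N * N ^ 2 := mul_le_mul_of_nonneg_left (by nlinarith) hN0.le
      _ = N ^ 3 := by ring
  have hN31 : 1 ≤ N ^ 3 := hN.trans hN3
  have hUN1 : 1 ≤ U ^ 2 * N ^ 3 := by nlinarith
  have hUN : N * U ≤ U ^ 2 * N ^ 3 := by
    calc N * U = U * N := mul_comm _ _
      _ ≤ U ^ 2 * N ^ 3 := mul_le_mul hU2 hN3 hN0.le (by positivity)
  induction R with
  | zero =>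
    intro u i hi _ huT hc
    have h2 : (0 : ℝ) < 2 ^ u := by positivity
    have h1 : u ≤ h i := by
      refine hLNG X K D U Y N T₀ 𝓛 Lf dc nar gd Fam hE S A h hD u i huT hi ?_
      have h3 : N * U * (2 ^ u * Y) ≤ U ^ 2 * N ^ 3 * (2 ^ u * Y) :=
        mul_le_mul_of_nonneg_right hUN (by positivity)
      have h4 : 0 < U ^ 2 * N ^ 3 * (2 ^ u * Y) := by positivity
      calc 8 * N * 2 ^ u * U * Y = 8 * (N * U * (2 ^ u * Y)) := by ring
        _ ≤ 8 * (U ^ 2 * N ^ 3 * (2 ^ u * Y)) := by linarith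
        _ < 3 * (48 * (U ^ 2 * N ^ 3 * (2 ^ u * Y))) := by linarith
        _ = 3 * (2 ^ u * (48 * U ^ 2 * N ^ 3 * Y)) := by ring
        _ ≤ 3 * (gs dc nar gd (A i)).card := by linarith
    simp only [zero_add, mul_one, zero_mul, add_zero]
    omega
  | succ R ih =>
    intro u i hi hRu huT hc
    obtain ⟨u', rfl⟩ : ∃ u', u = L + u' := ⟨u - L, by
      have : L ≤ (R + 1) * L := Nat.le_mul_of_pos_left L (Nat.succ_pos R)
      omega⟩
    have hRu' : R * L ≤ u' := by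
      have : (R + 1) * L = R * L + L := by ring
      omega
    have hZ : 0 < U ^ 2 * N ^ 3 * Y := by positivity
    have hpos : 0 < U ^ 2 * N ^ 3 * (2 ^ (L + u') * Y) := by positivity
    have hcc : 48 * (U ^ 2 * N ^ 3 * (2 ^ (L + u') * Y)) ≤ ((gs dc nar gd (A i)).card : ℝ) := by
      refine le_trans (le_of_eq ?_) hc
      ring
    have hLu : (2 : ℝ) ^ L ≤ 2 ^ (L + u') := pow_le_pow_right₀ (by norm_num) (by omega)
    have hcard : 16 * U ^ 2 * (S + 2 * N ^ 3 * 2 ^ (L + u')) * Y ≤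
        ((gs dc nar gd (A i)).card : ℝ) := by
      have h1 : 16 * U ^ 2 * S * Y ≤ 2 ^ (L + u') * Y :=
        mul_le_mul_of_nonneg_right (hL.trans hLu) hY.le
      have h2 : 1 * (2 ^ (L + u') * Y) ≤ U ^ 2 * N ^ 3 * (2 ^ (L + u') * Y) :=
        mul_le_mul_of_nonneg_right hUN1 (by positivity)
      calc 16 * U ^ 2 * (S + 2 * N ^ 3 * 2 ^ (L + u')) * Y
          = 16 * U ^ 2 * S * Y + 32 * (U ^ 2 * N ^ 3 * (2 ^ (L + u') * Y)) := by ring
        _ ≤ 48 * (U ^ 2 * N ^ 3 * (2 ^ (L + u') * Y)) := by linarith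
        _ ≤ _ := hcc
    have hgpos : 0 < (gs dc nar gd (A i)).card := by
      have : (0 : ℝ) < ((gs dc nar gd (A i)).card : ℝ) := by linarith
      exact_mod_cast this
    obtain ⟨j, hj, hji, hjc⟩ := hPHA X K D U Y N T₀ 𝓛 Lf dc nar gd Fam hE S A h hD (L + u') i
      huT hi hgpos hcard
    have h5 : ((gs dc nar gd (A i)).card : ℝ) ≤ 2 ^ L * (gs dc nar gd (A j)).card :=
      hjc.trans (mul_le_mul_of_nonneg_right hL (by positivity))
    have h6 : 2 ^ u' * (48 * U ^ 2 * N ^ 3 * Y) ≤ ((gs dc nar gd (A j)).card : ℝ) := by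
      have h7 := hc.trans h5
      rw [pow_add, mul_assoc] at h7
      exact le_of_mul_le_mul_left h7 (by positivity)
    have h8 := ih u' j hj hRu' (by omega) h6
    nlinarith [h8, hji]

end Pool.Agent.H72.SHL
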